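import Pool.Agent.H51.MFM.S

/-!
# Board mfm: row ILA
-/

set_option autoImplicit false

namespace Pool.MFM

namespace WIla

open MvPolynomial Finset

variable {K ι : Type} [CommRing K] [Algebra ℂ K]

theorem dcM_coeff (d : Derivation ℂ K K) (F : MvPolynomial ι K) (γ : ι →₀ ℕ) :
    coeff γ (dcM d F) = d (coeff γ F) := by
  classical
  unfold dcM
  rw [coeff_sum]
  simp only [coeff_monomial]
  rw [Finset.sum_ite_eq' F.support γ (fun m => d (coeff m F))]
  split_ifs with h
  · rfl
  · rw [notMem_support_iff.1 h, map_zero]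

theorem dcM_add (d : Derivation ℂ K K) (p q : MvPolynomial ι K) :
    dcM d (p + q) = dcM d p + dcM d q := by
  ext n
  rw [dcM_coeff, coeff_add, coeff_add, dcM_coeff, dcM_coeff, map_add]

theorem dcM_zero (d : Derivation ℂ K K) : dcM d (0 : MvPolynomial ι K) = 0 := by
  ext n
  rw [dcM_coeff, coeff_zero, map_zero]

theorem dcM_C (d : Derivation ℂ K K) (a : K) : dcM d (C a : MvPolynomial ι K) = C (d a) := by
  classical
  ext n
  rw [dcM_coeff, coeff_C, coeff_C]
  split_ifs
  · rfl
  · exact map_zero d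

theorem dcM_X (d : Derivation ℂ K K) (i : ι) : dcM d (X i : MvPolynomial ι K) = 0 := by
  classical
  ext n
  rw [dcM_coeff, coeff_X, coeff_zero]
  split_ifs
  · exact Derivation.map_one_eq_zero d
  · exact map_zero d

theorem dcM_mul (d : Derivation ℂ K K) (p q : MvPolynomial ι K) :
    dcM d (p * q) = dcM d p * q + p * dcM d q := by
  classical
  ext n
  rw [dcM_coeff, coeff_add, coeff_mul, coeff_mul, coeff_mul, map_sum, ← Finset.sum_add_distrib]
  refine Finset.sum_congr rfl fun x _ => ?_
  rw [Derivation.leibniz, dcM_coeff, dcM_coeff]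
  simp only [smul_eq_mul]
  ring

theorem dcM_sum (d : Derivation ℂ K K) {α : Type} (s : Finset α) (f : α → MvPolynomial ι K) :
    dcM d (∑ i ∈ s, f i) = ∑ i ∈ s, dcM d (f i) := by
  classical
  induction s using Finset.induction_on with
  | empty => rw [Finset.sum_empty, Finset.sum_empty, dcM_zero]
  | insert a s ha ih => rw [Finset.sum_insert ha, Finset.sum_insert ha, dcM_add, ih]

theorem dco_coeff (d : Derivation ℂ K K) (p : Polynomial K) (n : ℕ) :
    (dco d p).coeff n = d (p.coeff n) := by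
  unfold dco
  rw [Polynomial.finsetSum_coeff]
  simp only [Polynomial.coeff_monomial]
  rw [Finset.sum_ite_eq' p.support n (fun m => d (p.coeff m))]
  split_ifs with h
  · rfl
  · rw [Polynomial.notMem_support_iff.1 h, map_zero]

variable [Fintype ι]

theorem dcM_sT (d : Derivation ℂ K K) (s : ι → K) (hs : ∀ b, d (s b) = 0) :
    dcM d (sT s) = 0 := by
  unfold sT
  rw [dcM_sum]
  refine Finset.sum_eq_zero fun b _ => ?_
  rw [dcM_mul, dcM_C, dcM_X, hs, C_0, zero_mul, mul_zero, add_zero]

theorem dcM_pow (d : Derivation ℂ K K) (F : MvPolynomial ι K) (hF : dcM d F = 0) (n : ℕ) :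
    dcM d (F ^ n) = 0 := by
  induction n with
  | zero => rw [pow_zero, ← C_1, dcM_C, Derivation.map_one_eq_zero, C_0]
  | succ n ih => rw [pow_succ, dcM_mul, ih, hF, zero_mul, mul_zero, add_zero]

theorem dcM_aeval (d : Derivation ℂ K K) (s : ι → K) (hs : ∀ b, d (s b) = 0)
    (p : Polynomial K) :
    dcM d (Polynomial.aeval (sT s) p) = Polynomial.aeval (sT s) (dco d p) := by
  have h1 : ∀ q : Polynomial K, ∀ N, q.natDegree < N → Polynomial.aeval (sT s) q =
      ∑ n ∈ range N, C (q.coeff n) * sT s ^ n := by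
    intro q N hN
    rw [Polynomial.aeval_eq_sum_range' hN]
    refine Finset.sum_congr rfl fun n _ => ?_
    rw [smul_eq_C_mul]
  obtain ⟨N, hN1, hN2⟩ : ∃ N, p.natDegree < N ∧ (dco d p).natDegree < N :=
    ⟨max p.natDegree (dco d p).natDegree + 1, by omega, by omega⟩
  rw [h1 p N hN1, h1 _ N hN2, dcM_sum]
  refine Finset.sum_congr rfl fun n _ => ?_
  rw [dcM_mul, dcM_C, dcM_pow d _ (dcM_sT d s hs), mul_zero, add_zero, dco_coeff]

theorem pderiv_sT (s : ι → K) (e : ι) : pderiv e (sT s) = C (s e) := by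
  classical
  unfold sT
  rw [map_sum, Finset.sum_eq_single e]
  · rw [pderiv_C_mul, pderiv_X_self, mul_one]
  · intro b _ hb
    rw [pderiv_C_mul, pderiv_X_of_ne hb, mul_zero]
  · intro h
    exact absurd (Finset.mem_univ e) h

theorem pderiv_aeval (s : ι → K) (e : ι) (p : Polynomial K) :
    pderiv e (Polynomial.aeval (sT s) p) =
      C (s e) * Polynomial.aeval (sT s) (Polynomial.derivative p) := by
  rw [Derivation.map_aeval, pderiv_sT, smul_eq_mul, mul_comm]

theorem itP_aeval (s : ι → K) (L : List ι) (p : Polynomial K) :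
    itP L (Polynomial.aeval (sT s) p) = C (L.map s).prod *
      Polynomial.aeval (sT s) (Polynomial.derivative^[L.length] p) := by
  unfold itP
  induction L with
  | nil =>
    rw [itD, List.map_nil, List.prod_nil, C_1, one_mul]
    rfl
  | cons i L ih =>
    rw [itD, ih, pderiv_C_mul, pderiv_aeval, List.map_cons, List.prod_cons, List.length_cons,
      Function.iterate_succ_apply', C_mul]
    ring

theorem itP_add (L : List ι) (F G : MvPolynomial ι K) : itP L (F + G) = itP L F + itP L G := by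
  unfold itP
  induction L with
  | nil => rfl
  | cons i L ih => rw [itD, itD, itD, ih, map_add]

theorem itP_Cmul (L : List ι) (c : K) (F : MvPolynomial ι K) :
    itP L (C c * F) = C c * itP L F := by
  unfold itP
  induction L with
  | nil => rfl
  | cons i L ih => rw [itD, itD, ih, pderiv_C_mul]

theorem Aop_Cmul (δ : ι → Derivation ℂ K K) (g : ι → K) (k : ℕ) (a : ι) (c : K)
    (F : MvPolynomial ι K) : Aop δ g k a (C c * F) = C c * Aop δ g k a F := by
  unfold Aop
  rw [Finset.mul_sum]
  refine Finset.sum_congr rfl fun b _ => ?_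
  rw [Finset.mul_sum]
  refine Finset.sum_congr rfl fun e _ => ?_
  rw [itP_Cmul, pderiv_C_mul]
  ring

theorem Aop_add (δ : ι → Derivation ℂ K K) (g : ι → K) (k : ℕ) (a : ι)
    (F G : MvPolynomial ι K) : Aop δ g k a (F + G) = Aop δ g k a F + Aop δ g k a G := by
  unfold Aop
  rw [← Finset.sum_add_distrib]
  refine Finset.sum_congr rfl fun b _ => ?_
  rw [← Finset.sum_add_distrib]
  refine Finset.sum_congr rfl fun e _ => ?_
  rw [itP_add, map_add]
  ring

theorem Aop_zero (δ : ι → Derivation ℂ K K) (g : ι → K) (k : ℕ) (a : ι) :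
    Aop δ g k a (0 : MvPolynomial ι K) = 0 := by
  have h := Aop_Cmul δ g k a 0 0
  rw [C_0, zero_mul, zero_mul] at h
  exact h

theorem Aop_sum (δ : ι → Derivation ℂ K K) (g : ι → K) (k : ℕ) (a : ι) {α : Type}
    (s : Finset α) (f : α → MvPolynomial ι K) :
    Aop δ g k a (∑ i ∈ s, f i) = ∑ i ∈ s, Aop δ g k a (f i) := by
  classical
  induction s using Finset.induction_on with
  | empty => rw [Finset.sum_empty, Finset.sum_empty, Aop_zero]
  | insert i s hi ih => rw [Finset.sum_insert hi, Finset.sum_insert hi, Aop_add, ih]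

/-- The derivation in the direction `s`. -/
noncomputable def dsD (δ : ι → Derivation ℂ K K) (s : ι → K) : Derivation ℂ K K :=
  ∑ b, s b • δ b

theorem dsD_apply (δ : ι → Derivation ℂ K K) (s : ι → K) (x : K) :
    dsD δ s x = ∑ b, s b * δ b x := by
  unfold dsD
  have h : (Derivation.coeFnAddMonoidHom (∑ b, s b • δ b)) x =
      ∑ b, (Derivation.coeFnAddMonoidHom (s b • δ b)) x := by
    rw [map_sum, Finset.sum_apply]
  exact h

theorem dsD_coe (δ : ι → Derivation ℂ K K) (s : ι → K) :
    (⇑(dsD δ s) : K → K) = fun x => ∑ b, s b * δ b x := funext (dsD_apply δ s)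

theorem dsD_comm (δ : ι → Derivation ℂ K K) (s : ι → K)
    (hc : ∀ i j x, δ i (δ j x) = δ j (δ i x)) (hs : ∀ a b, δ a (s b) = 0) (a : ι) (x : K) :
    dsD δ s (δ a x) = δ a (dsD δ s x) := by
  rw [dsD_apply, dsD_apply, map_sum]
  refine Finset.sum_congr rfl fun b _ => ?_
  rw [Derivation.leibniz, hs, smul_zero, add_zero, smul_eq_mul, hc]

theorem prod_const {n : ℕ} (d : Derivation ℂ K K) (f : Fin n → K) (h : ∀ r, d (f r) = 0) :
    d (∏ r, f r) = 0 := by
  induction n with
  | zero => rw [Fin.prod_univ_zero, Derivation.map_one_eq_zero]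
  | succ n ih =>
    rw [Fin.prod_univ_succ, Derivation.leibniz, h 0, ih _ fun r => h r.succ, smul_zero, smul_zero,
      add_zero]

/-- The iterates of the derivation in the direction `s`. -/
theorem dsD_iter (δ : ι → Derivation ℂ K K) (g s : ι → K) (hs : ∀ a b, δ a (s b) = 0) (k : ℕ) :
    (⇑(dsD δ s))^[k] (∑ e, s e * g e) = ∑ b : Fin k → ι, (∏ r, s (b r)) *
      ∑ e, s e * itD (fun i => ⇑(δ i)) (List.ofFn b) (g e) := by
  induction k with
  | zero =>
    rw [Function.iterate_zero_apply, Fintype.sum_unique (ι := Fin 0 → ι), Fin.prod_univ_zero,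
      one_mul]
    refine Finset.sum_congr rfl fun e _ => ?_
    rw [List.ofFn_zero, itD]
  | succ k ih =>
    rw [Function.iterate_succ_apply', ih, dsD_apply]
    have e1 : ∀ i, s i * δ i (∑ b : Fin k → ι, (∏ r, s (b r)) *
        ∑ e, s e * itD (fun i => ⇑(δ i)) (List.ofFn b) (g e)) =
        ∑ b : Fin k → ι, (s i * ∏ r, s (b r)) *
          ∑ e, s e * δ i (itD (fun i => ⇑(δ i)) (List.ofFn b) (g e)) := by
      intro i
      rw [map_sum, Finset.mul_sum]
      refine Finset.sum_congr rfl fun b _ => ?_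
      rw [Derivation.leibniz, prod_const (δ i) _ fun r => hs i (b r), smul_zero, add_zero,
        smul_eq_mul, map_sum, mul_assoc]
      congr 2
      refine Finset.sum_congr rfl fun e _ => ?_
      rw [Derivation.leibniz, hs, smul_zero, add_zero, smul_eq_mul]
    rw [Finset.sum_congr rfl fun i _ => e1 i, ← Fintype.sum_prod_type']
    refine Fintype.sum_equiv (Fin.consEquiv fun _ => ι) _ _ fun w => ?_
    obtain ⟨i, b⟩ := w
    have e2 : Fin.consEquiv (fun _ : Fin (k + 1) => ι) (i, b) = Fin.cons i b := rfl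
    rw [e2, Fin.prod_univ_succ, List.ofFn_succ]
    simp only [Fin.cons_zero, Fin.cons_succ]
    rfl

/-- The operator on a function of a linear form. -/
theorem Aop_aeval (δ : ι → Derivation ℂ K K) (g s : ι → K) (hs : ∀ a b, δ a (s b) = 0)
    (k : ℕ) (a : ι) (p : Polynomial K) :
    Aop δ g k a (Polynomial.aeval (sT s) p) =
      C (δ a ((⇑(dsD δ s))^[k] (∑ e, s e * g e))) *
        Polynomial.aeval (sT s) (Polynomial.derivative^[k + 1] p) := by
  unfold Aop
  have e1 : ∀ (b : Fin k → ι) (e : ι), C (δ a (itD (fun i => ⇑(δ i)) (List.ofFn b) (g e))) *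
      pderiv e (itP (List.ofFn b) (Polynomial.aeval (sT s) p)) =
      C ((∏ r, s (b r)) * (s e * δ a (itD (fun i => ⇑(δ i)) (List.ofFn b) (g e)))) *
        Polynomial.aeval (sT s) (Polynomial.derivative^[k + 1] p) := by
    intro b e
    rw [itP_aeval, pderiv_C_mul, pderiv_aeval, List.length_ofFn, List.map_ofFn, List.prod_ofFn,
      ← Function.iterate_succ_apply' (f := Polynomial.derivative), C_mul, C_mul]
    simp only [Function.comp]
    ring
  rw [Finset.sum_congr rfl fun b _ => Finset.sum_congr rfl fun e _ => e1 b e]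
  simp only [← Finset.sum_mul]
  congr 1
  rw [dsD_iter δ g s hs, map_sum, map_sum]
  refine Finset.sum_congr rfl fun b _ => ?_
  rw [Derivation.leibniz, prod_const (δ a) _ fun r => hs a (b r), smul_zero, add_zero,
    smul_eq_mul, map_sum, Finset.mul_sum, map_sum]
  refine Finset.sum_congr rfl fun e _ => ?_
  rw [Derivation.leibniz, hs, smul_zero, add_zero, smul_eq_mul]

theorem csmul_C (r : ℂ) (x : K) : (C (r • x) : MvPolynomial ι K) = r • C x := by
  classical
  ext n
  rw [coeff_smul, coeff_C, coeff_C]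
  split_ifs
  · rfl
  · rw [smul_zero]

end WIla

open WIla MvPolynomial in
/-- ILA. -/
theorem t_ila (hONE : ONEStmt) : ILAStmt := by
  classical
  intro K ι J _ _ _ _ δ g c s n hδ hc hs
  -- the quantisation, with derivations
  have hW : ∀ i, Wp δ g c s n i = ∑ j, C (c j) * Polynomial.aeval (sT (s j))
      (wq (⇑(dsD δ (s j))) (∑ b, s j b * g b) (n j) i) := by
    intro i
    unfold Wp
    refine Finset.sum_congr rfl fun j _ => ?_
    rw [dsD_coe]
  have hCa : ∀ (j : J) (x : K) (p : Polynomial K), Polynomial.aeval (sT (s j))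
      (Polynomial.C x * p) = C x * Polynomial.aeval (sT (s j)) p := by
    intro j x p
    rw [map_mul, Polynomial.aeval_C, algebraMap_eq]
  refine ⟨fun i a => ?_, fun i => ?_⟩
  · rw [hW, dcM_sum]
    have e1 : ∀ j, dcM (δ a) (C (c j) * Polynomial.aeval (sT (s j))
        (wq (⇑(dsD δ (s j))) (∑ b, s j b * g b) (n j) i)) =
        ∑ k ∈ Finset.range (i + 1), (((k + 1).factorial : ℕ) : ℂ)⁻¹ • (C (c j) *
          Aop δ g k a (Polynomial.aeval (sT (s j))
            (wq (⇑(dsD δ (s j))) (∑ b, s j b * g b) (n j) (i - k)))) := by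
      intro j
      rw [dcM_mul, dcM_C, hc, C_0, zero_mul, zero_add,
        dcM_aeval (δ a) (s j) (fun b => hs a j b),
        (hONE K (dsD δ (s j)) (δ a) (fun x => dsD_comm δ (s j) hδ (fun a b => hs a j b) a x)
          (∑ b, s j b * g b) (n j) i).1, map_sum, Finset.mul_sum]
      refine Finset.sum_congr rfl fun k _ => ?_
      rw [hCa, Aop_aeval δ g (s j) (fun a b => hs a j b), csmul_C, smul_mul_assoc, mul_smul_comm]
    rw [Finset.sum_congr rfl fun j _ => e1 j, Finset.sum_comm]
    refine Finset.sum_congr rfl fun k _ => ?_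
    rw [← Finset.smul_sum, hW, Aop_sum]
    congr 1
    refine Finset.sum_congr rfl fun j _ => ?_
    rw [Aop_Cmul]
  · rw [hW, Finset.smul_sum]
    have e1 : ∀ j, (((i + 1 : ℕ) : ℂ)) • (C (c j) * Polynomial.aeval (sT (s j))
        (wq (⇑(dsD δ (s j))) (∑ b, s j b * g b) (n j) (i + 1))) =
        ∑ k ∈ Finset.range (i + 1), ((((k + 1 : ℕ) : ℂ) * (((k + 2).factorial : ℕ) : ℂ)⁻¹)) •
          ∑ a, pderiv a (C (c j) * Aop δ g k a (Polynomial.aeval (sT (s j))
            (wq (⇑(dsD δ (s j))) (∑ b, s j b * g b) (n j) (i - k)))) := by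
      intro j
      have f1 : (((i + 1 : ℕ) : ℂ)) • (C (c j) * Polynomial.aeval (sT (s j))
          (wq (⇑(dsD δ (s j))) (∑ b, s j b * g b) (n j) (i + 1))) =
          C (c j) * Polynomial.aeval (sT (s j)) ((((i + 1 : ℕ) : ℂ)) •
            (wq (⇑(dsD δ (s j))) (∑ b, s j b * g b) (n j) (i + 1))) := by
        rw [Nat.cast_smul_eq_nsmul, Nat.cast_smul_eq_nsmul, map_nsmul, mul_smul_comm]
      rw [f1, (hONE K (dsD δ (s j)) (dsD δ (s j)) (fun _ => rfl)
          (∑ b, s j b * g b) (n j) i).2, map_sum, Finset.mul_sum]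
      refine Finset.sum_congr rfl fun k _ => ?_
      rw [hCa]
      have f2 : ∀ a, pderiv a (C (c j) * Aop δ g k a (Polynomial.aeval (sT (s j))
          (wq (⇑(dsD δ (s j))) (∑ b, s j b * g b) (n j) (i - k)))) =
          C (c j) * (C (s j a * δ a ((⇑(dsD δ (s j)))^[k] (∑ b, s j b * g b))) *
            Polynomial.aeval (sT (s j)) (Polynomial.derivative^[k + 2]
            (wq (⇑(dsD δ (s j))) (∑ b, s j b * g b) (n j) (i - k)))) := by
        intro a
        rw [pderiv_C_mul, Aop_aeval δ g (s j) (fun a b => hs a j b), pderiv_C_mul, pderiv_aeval,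
          ← Function.iterate_succ_apply' (f := Polynomial.derivative), C_mul]
        ring
      rw [Finset.sum_congr rfl fun a _ => f2 a, ← Finset.mul_sum, ← Finset.sum_mul, ← map_sum,
        ← dsD_apply, ← Function.iterate_succ_apply' (f := ⇑(dsD δ (s j))), csmul_C,
        smul_mul_assoc, mul_smul_comm]
    rw [Finset.sum_congr rfl fun j _ => e1 j, Finset.sum_comm]
    refine Finset.sum_congr rfl fun k _ => ?_
    rw [← Finset.smul_sum, Finset.sum_comm]
    congr 1
    refine Finset.sum_congr rfl fun a _ => ?_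
    rw [← map_sum, hW, Aop_sum]
    congr 1
    refine Finset.sum_congr rfl fun j _ => ?_
    rw [Aop_Cmul]

end Pool.MFM
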