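import Pool.Agent.H51.MFM.S

/-!
# Board mfm: row LCZ
-/

set_option autoImplicit false

namespace Pool.MFM

/-- LCZ. -/
theorem t_lcz : LCZStmt := by
  classical
  intro σ _ p hp
  obtain ⟨P, hP⟩ : ∃ P : Ideal (MvPolynomial σ ℂ), P = Ideal.span {p} := ⟨_, rfl⟩
  have hPp : P.IsPrime := by
    rw [hP]
    exact (Ideal.span_singleton_prime hp.ne_zero).2 hp
  have hmem : ∀ b, b ∈ P.primeCompl ↔ ¬ p ∣ b := by
    intro b
    rw [← Ideal.mem_span_singleton, ← hP]
    rfl
  have hM : P.primeCompl ≤ nonZeroDivisors (MvPolynomial σ ℂ) := P.primeCompl_le_nonZeroDivisors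
  have hdom : IsDomain (Localization.AtPrime P) := IsLocalization.isDomain_localization hM
  obtain ⟨am, ham⟩ : ∃ am : MvPolynomial σ ℂ →+* Localization.AtPrime P,
    am = algebraMap (MvPolynomial σ ℂ) (Localization.AtPrime P) := ⟨_, rfl⟩
  have hinj : Function.Injective am := by
    rw [ham]
    exact IsLocalization.injective (Localization.AtPrime P) hM
  have hmk : ∀ x : Localization.AtPrime P, ∃ a b : MvPolynomial σ ℂ, ¬ p ∣ b ∧
      x * am b = am a := by
    intro x
    obtain ⟨⟨a, b⟩, h⟩ := IsLocalization.surj P.primeCompl x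
    refine ⟨a, b, (hmem _).1 b.2, ?_⟩
    rw [ham]
    exact h
  have hun : ∀ b : MvPolynomial σ ℂ, ¬ p ∣ b → IsUnit (am b) := by
    intro b hb
    rw [ham]
    exact IsLocalization.map_units (Localization.AtPrime P) (⟨b, (hmem b).2 hb⟩ : P.primeCompl)
  have hdv : ∀ (c : MvPolynomial σ ℂ) (e : ℕ), am (p ^ e) ∣ am c → p ^ e ∣ c := by
    rintro c e ⟨x, hx⟩
    obtain ⟨a, b, hb, hab⟩ := hmk x
    have h1 : am (c * b) = am (p ^ e * a) := by
      rw [map_mul, map_mul, hx, mul_assoc, hab]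
    have h2 := hinj h1
    exact hp.pow_dvd_of_dvd_mul_right e hb ⟨a, h2⟩
  have hfac : ∀ x : Localization.AtPrime P, x ≠ 0 → ∃ (e : ℕ) (u : Localization.AtPrime P),
      IsUnit u ∧ x = am (p ^ e) * u := by
    intro x hx
    obtain ⟨a, b, hb, hab⟩ := hmk x
    have hu := hun b hb
    have ha : a ≠ 0 := by
      rintro rfl
      rw [map_zero] at hab
      rcases mul_eq_zero.1 hab with h | h
      · exact hx h
      · rw [h] at hu
        exact not_isUnit_zero hu
    have hfm : FiniteMultiplicity p a := FiniteMultiplicity.of_not_isUnit hp.not_isUnit ha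
    obtain ⟨a', h1, h2⟩ := hfm.exists_eq_pow_mul_and_not_dvd
    obtain ⟨v, hv⟩ := hu
    refine ⟨multiplicity p a, am a' * ↑v⁻¹, (hun a' h2).mul v⁻¹.isUnit, ?_⟩
    rw [← mul_assoc, ← map_mul, ← h1, ← hab, ← hv, mul_assoc, Units.mul_inv, mul_one]
  -- the prime
  have hpr : Prime (am p) := by
    refine ⟨?_, ?_, ?_⟩
    · intro h
      exact hp.ne_zero (hinj (h.trans (map_zero am).symm))
    · intro h
      obtain ⟨y, hy⟩ := isUnit_iff_exists_inv.1 h
      have h1 : am (p ^ 1) ∣ am 1 := by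
        rw [pow_one, map_one]
        exact ⟨y, hy.symm⟩
      have h2 := hdv 1 1 h1
      rw [pow_one] at h2
      exact hp.not_isUnit (isUnit_of_dvd_one h2)
    · intro x y hxy
      obtain ⟨a1, b1, hb1, h1⟩ := hmk x
      obtain ⟨a2, b2, hb2, h2⟩ := hmk y
      have h3 : am (p ^ 1) ∣ am (a1 * a2) := by
        rw [pow_one, map_mul, ← h1, ← h2]
        refine hxy.trans ⟨am b1 * am b2, by ring⟩
      have h4 := hdv _ _ h3
      rw [pow_one] at h4
      have key : ∀ (z : Localization.AtPrime P) (a b : MvPolynomial σ ℂ), ¬ p ∣ b →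
          z * am b = am a → p ∣ a → am p ∣ z := by
        rintro z a b hb hz ⟨w, hw⟩
        have h5 : am p ∣ z * am b := by
          rw [hz, hw, map_mul]
          exact ⟨_, rfl⟩
        exact (hun b hb).dvd_mul_right.1 h5
      rcases hp.dvd_or_dvd h4 with h | h
      · exact Or.inl (key x a1 b1 hb1 h1 h)
      · exact Or.inr (key y a2 b2 hb2 h2 h)
  have hdvr : IsDiscreteValuationRing (Localization.AtPrime P) := by
    refine IsDiscreteValuationRing.ofHasUnitMulPowIrreducibleFactorization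
      ⟨am p, hpr.irreducible, fun {x} hx => ?_⟩
    obtain ⟨e, u, hu, h⟩ := hfac x hx
    obtain ⟨v, rfl⟩ := hu
    refine ⟨e, v, ?_⟩
    rw [h, map_pow]
  refine ⟨Localization.AtPrime P, inferInstance, hdom, hdvr.toIsPrincipalIdealRing,
    inferInstance, inferInstance, inferInstance, ?_⟩
  rw [← ham]
  refine ⟨hinj, ?_, hmk, hun, hdv, hfac⟩
  intro a b
  by_cases ha : a = 0
  · right
    rw [ha]
    exact dvd_zero b
  by_cases hb : b = 0
  · left
    rw [hb]
    exact dvd_zero a
  obtain ⟨e, u, hu, h1⟩ := hfac a ha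
  obtain ⟨f, v, hv, h2⟩ := hfac b hb
  rcases le_total e f with h | h
  · left
    rw [h1, h2, hu.mul_right_dvd]
    exact (map_dvd am (pow_dvd_pow p h)).mul_right v
  · right
    rw [h1, h2, hv.mul_right_dvd]
    exact (map_dvd am (pow_dvd_pow p h)).mul_right u

end Pool.MFM
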