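import Pool.Agent.H51.MFM.S

/-!
# Board mfm: row ONE
-/

set_option autoImplicit false

namespace Pool.MFM

namespace WOne

open Polynomial Finset

variable {K : Type} [CommRing K] [Algebra ℂ K]

theorem dco_coeff (d : Derivation ℂ K K) (p : K[X]) (n : ℕ) :
    (dco d p).coeff n = d (p.coeff n) := by
  unfold dco
  rw [finsetSum_coeff]
  simp only [coeff_monomial]
  rw [Finset.sum_ite_eq' p.support n (fun m => d (p.coeff m))]
  split_ifs with h
  · rfl
  · rw [notMem_support_iff.1 h, map_zero]

theorem dco_add (d : Derivation ℂ K K) (p q : K[X]) : dco d (p + q) = dco d p + dco d q := by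
  ext n
  rw [dco_coeff, coeff_add, coeff_add, dco_coeff, dco_coeff, map_add]

theorem dco_zero (d : Derivation ℂ K K) : dco d (0 : K[X]) = 0 := by
  ext n
  rw [dco_coeff, coeff_zero, map_zero]

theorem dco_C (d : Derivation ℂ K K) (a : K) : dco d (C a) = C (d a) := by
  ext n
  rw [dco_coeff, coeff_C, coeff_C]
  split_ifs
  · rfl
  · exact map_zero d

theorem dco_one (d : Derivation ℂ K K) : dco d (1 : K[X]) = 0 := by
  rw [← C_1, dco_C, Derivation.map_one_eq_zero, C_0]

theorem dco_X (d : Derivation ℂ K K) : dco d (X : K[X]) = 0 := by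
  ext n
  rw [dco_coeff, coeff_X, coeff_zero]
  split_ifs
  · exact Derivation.map_one_eq_zero d
  · exact map_zero d

theorem dco_mul (d : Derivation ℂ K K) (p q : K[X]) :
    dco d (p * q) = dco d p * q + p * dco d q := by
  ext n
  rw [dco_coeff, coeff_add, coeff_mul, coeff_mul, coeff_mul, map_sum, ← Finset.sum_add_distrib]
  refine Finset.sum_congr rfl fun x _ => ?_
  rw [Derivation.leibniz, dco_coeff, dco_coeff]
  simp only [smul_eq_mul]
  ring

theorem dco_sum (d : Derivation ℂ K K) {ι : Type} (s : Finset ι) (f : ι → K[X]) :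
    dco d (∑ i ∈ s, f i) = ∑ i ∈ s, dco d (f i) := by
  classical
  induction s using Finset.induction_on with
  | empty => rw [Finset.sum_empty, Finset.sum_empty, dco_zero]
  | insert a s ha ih => rw [Finset.sum_insert ha, Finset.sum_insert ha, dco_add, ih]

theorem dco_der (d : Derivation ℂ K K) (p : K[X]) :
    dco d (derivative p) = derivative (dco d p) := by
  ext n
  rw [dco_coeff, coeff_derivative, coeff_derivative, dco_coeff, Derivation.leibniz]
  have h : d ((n : K) + 1) = 0 := by
    rw [map_add, Derivation.map_natCast, Derivation.map_one_eq_zero, add_zero]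
  rw [h, smul_zero, zero_add, smul_eq_mul, mul_comm]

theorem dco_derI (d : Derivation ℂ K K) (k : ℕ) (p : K[X]) :
    dco d (derivative^[k] p) = derivative^[k] (dco d p) := by
  induction k generalizing p with
  | zero => rfl
  | succ k ih => rw [Function.iterate_succ_apply, ih, dco_der, Function.iterate_succ_apply]

theorem dco_comm (d d' : Derivation ℂ K K) (h : ∀ x, d (d' x) = d' (d x)) (p : K[X]) :
    dco d (dco d' p) = dco d' (dco d p) := by
  ext n
  rw [dco_coeff, dco_coeff, dco_coeff, dco_coeff, h]

theorem derI_T (y : K) (k : ℕ) (w : K[X]) :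
    derivative^[k + 1] ((X + C y) * w) = (X + C y) * derivative^[k + 1] w +
      ((k + 1 : ℕ) : K[X]) * derivative^[k] w := by
  induction k with
  | zero =>
    rw [Function.iterate_succ_apply, Function.iterate_zero_apply, derivative_mul, derivative_add,
      derivative_X, derivative_C, Function.iterate_succ_apply, Function.iterate_zero_apply,
      Function.iterate_zero_apply]
    push_cast
    ring
  | succ k ih =>
    rw [Function.iterate_succ_apply', ih, derivative_add, derivative_mul, derivative_add,
      derivative_X, derivative_C, derivative_mul, derivative_natCast,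
      ← Function.iterate_succ_apply' (f := derivative) (n := k + 1),
      ← Function.iterate_succ_apply' (f := derivative) (n := k)]
    push_cast
    ring

theorem derI_add (k : ℕ) (p q : K[X]) :
    derivative^[k] (p + q) = derivative^[k] p + derivative^[k] q := by
  induction k generalizing p q with
  | zero => rfl
  | succ k ih => rw [Function.iterate_succ_apply, derivative_add, ih,
      ← Function.iterate_succ_apply, ← Function.iterate_succ_apply]

/-- The second part of the recursion. -/
noncomputable def vq (ds : K → K) (w : ℕ → K[X]) : ℕ → K[X]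
  | 0 => 0
  | i + 1 => dco ds (w i)

theorem wq_rec (ds : K → K) (y : K) (n i : ℕ) :
    wq ds y (n + 1) i = (X + C y) * wq ds y n i + vq ds (wq ds y n) i := by
  rcases i with _ | i
  · rw [wq, vq, add_zero]
  · rw [wq, vq]

theorem der_wq0 (ds : K → K) (y : K) (i k : ℕ) : derivative^[k + 1] (wq ds y 0 i) = 0 := by
  rw [Function.iterate_succ_apply]
  have h : derivative (wq ds y 0 i) = 0 := by
    rcases i with _ | i
    · rw [wq, derivative_one]
    · rw [wq, derivative_zero]
  rw [h]
  exact iterate_derivative_zero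

theorem dco_wq0 (ds : K → K) (da : Derivation ℂ K K) (y : K) (i : ℕ) :
    dco da (wq ds y 0 i) = 0 := by
  rcases i with _ | i
  · rw [wq, dco_one]
  · rw [wq, dco_zero]

/-- The first family of equations, for coefficients with the rule `ds (a k) = (k + 2) a (k + 1)`. -/
theorem one_a (ds da : Derivation ℂ K K) (hc : ∀ x, ds (da x) = da (ds x)) (y : K)
    (al : ℕ → K) (h0 : al 0 = da y) (h1 : ∀ k, ds (al k) = ((k + 2 : ℕ) : K) * al (k + 1))
    (n i : ℕ) :
    dco da (wq ds y n i) = ∑ k ∈ range (i + 1),
      C (al k) * derivative^[k + 1] (wq ds y n (i - k)) := by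
  induction n generalizing i with
  | zero =>
    rw [dco_wq0]
    symm
    refine Finset.sum_eq_zero fun k _ => ?_
    rw [der_wq0, mul_zero]
  | succ n ih =>
    have e1 : ∀ k ∈ range (i + 1), C (al k) * derivative^[k + 1] (wq ds y (n + 1) (i - k)) =
        (X + C y) * (C (al k) * derivative^[k + 1] (wq ds y n (i - k))) +
          (C (al k) * (((k + 1 : ℕ) : K[X]) * derivative^[k] (wq ds y n (i - k))) +
          C (al k) * derivative^[k + 1] (vq ds (wq ds y n) (i - k))) := by
      intro k _
      rw [wq_rec, derI_add, derI_T]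
      ring
    rw [Finset.sum_congr rfl e1, Finset.sum_add_distrib, ← Finset.mul_sum, ← ih i, wq_rec,
      dco_add, dco_mul, dco_add, dco_X, dco_C, zero_add, add_comm (C (da y) * wq ds y n i),
      add_assoc]
    congr 1
    rw [Finset.sum_add_distrib]
    rcases i with _ | i
    · rw [Finset.sum_range_one, Finset.sum_range_one]
      simp only [vq, h0, dco_zero, Function.iterate_zero_apply, Nat.sub_self]
      have : derivative^[0 + 1] (0 : K[X]) = 0 := iterate_derivative_zero
      rw [this]
      push_cast
      ring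
    · have e2 : dco da (vq ds (wq ds y n) (i + 1)) = ∑ k ∈ range (i + 1),
          (C (((k + 2 : ℕ) : K) * al (k + 1)) * derivative^[k + 1] (wq ds y n (i - k)) +
          C (al k) * derivative^[k + 1] (dco ds (wq ds y n (i - k)))) := by
        rw [vq, dco_comm da ds (fun x => (hc x).symm), ih i, dco_sum]
        refine Finset.sum_congr rfl fun k _ => ?_
        rw [dco_mul, dco_C, h1, dco_derI]
      have e3 : ∑ k ∈ range (i + 1 + 1), C (al k) * (((k + 1 : ℕ) : K[X]) *
          derivative^[k] (wq ds y n (i + 1 - k))) = ∑ k ∈ range (i + 1),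
          C (((k + 2 : ℕ) : K) * al (k + 1)) * derivative^[k + 1] (wq ds y n (i - k)) +
          C (da y) * wq ds y n (i + 1) := by
        rw [Finset.sum_range_succ']
        congr 1
        · refine Finset.sum_congr rfl fun k _ => ?_
          rw [Nat.add_sub_add_right, C_mul, C_eq_natCast]
          push_cast
          ring
        · rw [h0, Function.iterate_zero_apply, Nat.sub_zero]
          push_cast
          ring
      have e4 : ∑ k ∈ range (i + 1 + 1), C (al k) *
          derivative^[k + 1] (vq ds (wq ds y n) (i + 1 - k)) = ∑ k ∈ range (i + 1),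
          C (al k) * derivative^[k + 1] (dco ds (wq ds y n (i - k))) := by
        rw [Finset.sum_range_succ, Nat.sub_self]
        have : derivative^[i + 1 + 1] (vq ds (wq ds y n) 0) = 0 := iterate_derivative_zero
        rw [this, mul_zero, add_zero]
        refine Finset.sum_congr rfl fun k hk => ?_
        have hk' : k ≤ i := Nat.lt_succ_iff.1 (Finset.mem_range.1 hk)
        rw [Nat.succ_sub hk', vq]
      rw [e2, e3, e4, Finset.sum_add_distrib]
      ring

/-- The second family of equations. -/
theorem one_b (ds : Derivation ℂ K K) (y : K) (ga be : ℕ → K) (g0 : ga 0 = ds y)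
    (g1 : ∀ k, ds (ga k) = ((k + 2 : ℕ) : K) * ga (k + 1)) (b0 : ga 0 = 2 * be 0)
    (b1 : ∀ k, ga (k + 1) + ds (be k) = ((k + 3 : ℕ) : K) * be (k + 1)) (n i : ℕ) :
    ((i + 1 : ℕ) : K[X]) * wq ds y n (i + 1) = ∑ k ∈ range (i + 1),
      C (be k) * derivative^[k + 2] (wq ds y n (i - k)) := by
  induction n generalizing i with
  | zero =>
    rw [wq, mul_zero]
    symm
    refine Finset.sum_eq_zero fun k _ => ?_
    rw [der_wq0, mul_zero]
  | succ n ih =>
    have hA := one_a ds ds (fun _ => rfl) y ga g0 g1 n
    have e1 : ∀ k ∈ range (i + 1), C (be k) * derivative^[k + 2] (wq ds y (n + 1) (i - k)) =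
        (X + C y) * (C (be k) * derivative^[k + 2] (wq ds y n (i - k))) +
          (C (be k) * (((k + 2 : ℕ) : K[X]) * derivative^[k + 1] (wq ds y n (i - k))) +
          C (be k) * derivative^[k + 2] (vq ds (wq ds y n) (i - k))) := by
      intro k _
      rw [wq_rec, derI_add, derI_T y (k + 1)]
      ring
    rw [Finset.sum_congr rfl e1, Finset.sum_add_distrib, ← Finset.mul_sum, ← ih i, wq_rec,
      mul_add, mul_left_comm]
    congr 1
    rw [Finset.sum_add_distrib, vq]
    rcases i with _ | i
    · rw [Finset.sum_range_one, Finset.sum_range_one, hA 0, Finset.sum_range_one, b0]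
      simp only [vq, Nat.sub_self]
      have : derivative^[0 + 2] (0 : K[X]) = 0 := iterate_derivative_zero
      rw [this, C_mul]
      have h2 : (C (2 : K) : K[X]) = 2 := by
        rw [show (2 : K) = ((2 : ℕ) : K) by norm_num, C_eq_natCast]
        norm_num
      rw [h2]
      push_cast
      ring
    · have e2 : ((i + 1 + 1 : ℕ) : K[X]) * dco ds (wq ds y n (i + 1)) =
          dco ds (wq ds y n (i + 1)) + dco ds (((i + 1 : ℕ) : K[X]) * wq ds y n (i + 1)) := by
        have : dco ds (((i + 1 : ℕ) : K[X])) = 0 := by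
          rw [← C_eq_natCast, dco_C, Derivation.map_natCast, C_0]
        rw [dco_mul, this, zero_mul, zero_add]
        push_cast
        ring
      have e3 : dco ds (∑ k ∈ range (i + 1), C (be k) *
          derivative^[k + 2] (wq ds y n (i - k))) = ∑ k ∈ range (i + 1),
          (C (ds (be k)) * derivative^[k + 2] (wq ds y n (i - k)) +
          C (be k) * derivative^[k + 2] (dco ds (wq ds y n (i - k)))) := by
        rw [dco_sum]
        refine Finset.sum_congr rfl fun k _ => ?_
        rw [dco_mul, dco_C, dco_derI]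
      have e4 : ∑ k ∈ range (i + 1 + 1), C (be k) *
          derivative^[k + 2] (vq ds (wq ds y n) (i + 1 - k)) = ∑ k ∈ range (i + 1),
          C (be k) * derivative^[k + 2] (dco ds (wq ds y n (i - k))) := by
        rw [Finset.sum_range_succ, Nat.sub_self]
        have : derivative^[i + 1 + 2] (vq ds (wq ds y n) 0) = 0 := iterate_derivative_zero
        rw [this, mul_zero, add_zero]
        refine Finset.sum_congr rfl fun k hk => ?_
        have hk' : k ≤ i := Nat.lt_succ_iff.1 (Finset.mem_range.1 hk)
        rw [Nat.succ_sub hk', vq]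
      have e5 : ∑ k ∈ range (i + 1 + 1), C (be k) * (((k + 2 : ℕ) : K[X]) *
          derivative^[k + 1] (wq ds y n (i + 1 - k))) = ∑ k ∈ range (i + 1 + 1),
          C (ga k) * derivative^[k + 1] (wq ds y n (i + 1 - k)) + ∑ k ∈ range (i + 1),
          C (ds (be k)) * derivative^[k + 2] (wq ds y n (i - k)) := by
        rw [Finset.sum_range_succ', Finset.sum_range_succ' (fun k => C (ga k) *
          derivative^[k + 1] (wq ds y n (i + 1 - k)))]
        have f1 : ∀ k ∈ range (i + 1), C (be (k + 1)) * (((k + 1 + 2 : ℕ) : K[X]) *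
            derivative^[k + 1 + 1] (wq ds y n (i + 1 - (k + 1)))) =
            C (ga (k + 1)) * derivative^[k + 1 + 1] (wq ds y n (i + 1 - (k + 1))) +
            C (ds (be k)) * derivative^[k + 2] (wq ds y n (i - k)) := by
          intro k _
          have f2 : C (be (k + 1)) * ((k + 1 + 2 : ℕ) : K[X]) = C (ga (k + 1)) + C (ds (be k)) := by
            rw [← C_add, b1 k, C_mul, C_eq_natCast, mul_comm]
          rw [← mul_assoc, f2, Nat.add_sub_add_right, add_mul]
        rw [Finset.sum_congr rfl f1, Finset.sum_add_distrib, b0, C_mul]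
        have h2 : (C (2 : K) : K[X]) = 2 := by
          rw [show (2 : K) = ((2 : ℕ) : K) by norm_num, C_eq_natCast]
          norm_num
        rw [h2]
        push_cast
        ring
      rw [e2, ih i, e3, e4, e5, hA (i + 1), Finset.sum_add_distrib]
      ring

end WOne

open WOne in
/-- ONE. -/
theorem t_one : ONEStmt := by
  intro K _ _ ds da hc y n i
  have hn : ∀ m : ℕ, ((m.factorial : ℕ) : ℂ) ≠ 0 := fun m => by
    exact_mod_cast m.factorial_ne_zero
  have hf : ∀ m : ℕ, (((m + 1).factorial : ℕ) : ℂ) = ((m + 1 : ℕ) : ℂ) * ((m.factorial : ℕ) : ℂ) := by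
    intro m
    rw [Nat.factorial_succ]
    push_cast
    ring
  have hk : ∀ (m : ℕ) (c : ℂ) (x : K), ((m : ℕ) : K) * c • x = (((m : ℕ) : ℂ) * c) • x := by
    intro m c x
    rw [mul_smul, Nat.cast_smul_eq_nsmul, nsmul_eq_mul]
  have h1 : ∀ (d : Derivation ℂ K K), (∀ x, ds (d x) = d (ds x)) → ∀ k : ℕ,
      ds (((((k + 1).factorial : ℕ) : ℂ)⁻¹) • d ((⇑ds)^[k] y)) =
      ((k + 2 : ℕ) : K) * ((((k + 1 + 1).factorial : ℕ) : ℂ)⁻¹ • d ((⇑ds)^[k + 1] y)) := by
    intro d hd k
    rw [Derivation.map_smul, hd, ← Function.iterate_succ_apply' (f := ⇑ds), hk]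
    congr 1
    rw [hf (k + 1)]
    have h3 : ((k + 1 + 1 : ℕ) : ℂ) ≠ 0 := by exact_mod_cast (Nat.succ_ne_zero (k + 1))
    have h4 := hn (k + 1)
    rw [show (k + 2 : ℕ) = k + 1 + 1 from rfl]
    field_simp
  refine ⟨?_, ?_⟩
  · exact one_a ds da hc y (fun k => (((k + 1).factorial : ℕ) : ℂ)⁻¹ • da ((⇑ds)^[k] y))
      (by simp) (h1 da hc) n i
  · rw [Nat.cast_smul_eq_nsmul, nsmul_eq_mul]
    refine one_b ds y (fun k => (((k + 1).factorial : ℕ) : ℂ)⁻¹ • ds ((⇑ds)^[k] y))
      (fun k => (((k + 1 : ℕ) : ℂ) * (((k + 2).factorial : ℕ) : ℂ)⁻¹) • (⇑ds)^[k + 1] y)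
      (by simp) (h1 ds fun _ => rfl) ?_ ?_ n i
    · have e : (2 : K) = ((2 : ℕ) : K) := by norm_num
      rw [e, hk]
      simp only [Function.iterate_zero_apply, zero_add, Function.iterate_one]
      congr 1
      norm_num [Nat.factorial]
    · intro k
      rw [Derivation.map_smul, ← Function.iterate_succ_apply' (f := ⇑ds), hk, ← add_smul]
      congr 1
      have h3 := hn (k + 2)
      have h5 : (((k + 1 + 2).factorial : ℕ) : ℂ) = ((k + 3 : ℕ) : ℂ) *
          (((k + 2).factorial : ℕ) : ℂ) := hf (k + 2)
      have h6 : ((k + 3 : ℕ) : ℂ) ≠ 0 := by exact_mod_cast (Nat.succ_ne_zero (k + 2))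
      rw [h5]
      show (((k + 2).factorial : ℕ) : ℂ)⁻¹ + _ = _
      field_simp
      push_cast
      ring

end Pool.MFM
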