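import Pool.Agent.H51.MFM.S

/-!
# Board mfm: row POL
-/

set_option autoImplicit false

namespace Pool.MFM

open MvPolynomial in
/-- POL. -/
theorem t_pol : POLStmt := by
  classical
  intro R ι _ _ _ q hq
  -- the components
  obtain ⟨N, hN⟩ : ∃ N : ℕ, ∀ i, (q i).totalDegree < N := by
    refine ⟨(Finset.univ.sup fun i => (q i).totalDegree) + 1, fun i => ?_⟩
    exact Nat.lt_succ_of_le (Finset.le_sup (f := fun i => (q i).totalDegree) (Finset.mem_univ i))
  have hsum : ∀ i, ∑ d ∈ Finset.range N, homogeneousComponent d (q i) = q i := by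
    intro i
    refine Eq.trans ?_ (sum_homogeneousComponent (q i))
    symm
    refine Finset.sum_subset (Finset.range_subset_range.2 (hN i)) fun d _ hd => ?_
    refine homogeneousComponent_eq_zero d (q i) ?_
    rw [Finset.mem_range] at hd
    omega
  have hcomp : ∀ (d : ℕ) (i : ι) (p : MvPolynomial ι R),
      pderiv i (homogeneousComponent (d + 1) p) = homogeneousComponent d (pderiv i p) := by
    intro d i p
    ext m
    rw [coeff_pderiv, coeff_homogeneousComponent, coeff_homogeneousComponent, coeff_pderiv]
    have e : (m + Finsupp.single i 1).degree = m.degree + 1 := by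
      rw [map_add, Finsupp.degree_single]
    rw [e]
    by_cases h : m.degree = d
    · rw [if_pos h, if_pos (by rw [h])]
    · rw [if_neg h, if_neg (fun h' => h (Nat.succ_injective h')), zero_mul]
  refine ⟨∑ d ∈ Finset.range N, (((d + 1 : ℕ) : ℂ)⁻¹) •
    ∑ i, X i * homogeneousComponent d (q i), fun j => ?_⟩
  rw [map_sum]
  refine Eq.trans (Finset.sum_congr rfl fun d _ => ?_) (hsum j)
  have hs : pderiv j ((((d + 1 : ℕ) : ℂ)⁻¹) • ∑ i, X i * homogeneousComponent d (q i)) =
      (((d + 1 : ℕ) : ℂ)⁻¹) • pderiv j (∑ i, X i * homogeneousComponent d (q i)) := by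
    have e : ∀ (c : ℂ) (p : MvPolynomial ι R), c • p = (algebraMap ℂ R c) • p := fun c p =>
      (algebraMap_smul R c p).symm
    rw [e, e, Derivation.map_smul]
  rw [hs, map_sum]
  -- the closed form
  have h1 : ∀ i, pderiv j (X i * homogeneousComponent d (q i)) =
      (if i = j then homogeneousComponent d (q i) else 0) +
        X i * pderiv i (homogeneousComponent d (q j)) := by
    intro i
    rw [Derivation.leibniz, pderiv_X, smul_eq_mul, smul_eq_mul, add_comm]
    congr 1
    · by_cases h : i = j
      · rw [if_pos h, h, Pi.single_eq_same, mul_one]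
      · rw [if_neg h, Pi.single_eq_of_ne h, mul_zero]
    · congr 1
      rcases d with _ | d
      · have e0 : ∀ (a b : ι), pderiv a (homogeneousComponent 0 (q b)) = 0 := by
          intro a b
          rw [homogeneousComponent_zero, pderiv_C]
        rw [e0, e0]
      · rw [hcomp, hcomp, hq i j]
  rw [Finset.sum_congr rfl fun i _ => h1 i, Finset.sum_add_distrib, Finset.sum_ite_eq' Finset.univ j
    (fun i => homogeneousComponent d (q i)), if_pos (Finset.mem_univ j)]
  have h2 := (homogeneousComponent_isHomogeneous d (q j)).sum_X_mul_pderiv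
  rw [h2, ← Nat.cast_smul_eq_nsmul ℂ]
  have h3 : homogeneousComponent d (q j) + ((d : ℕ) : ℂ) • homogeneousComponent d (q j) =
      ((d + 1 : ℕ) : ℂ) • homogeneousComponent d (q j) := by
    push_cast
    rw [add_smul, one_smul, add_comm]
  rw [h3, smul_smul, inv_mul_cancel₀ (by exact_mod_cast Nat.succ_ne_zero d), one_smul]

end Pool.MFM
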